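import Pool.Agent.W352.Qp.CH
import Pool.Agent.W352.CHF

/-!
# A non-selective q-point which is a Fubini limit of selective ultrafilters

* ZFC: a Fubini limit of pairwise non-isomorphic selective ultrafilters is a q-point which is not
  selective.
* The continuum hypothesis gives a sequence of pairwise non-isomorphic selective ultrafilters.
* The continuum hypothesis is forced by a preordered set of conditions.

The forcing language is the one of `Pool.Agent.Helper669.Forcing`: a sentence is the set of the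
conditions which force it, `fnot`, `fand`, `fall` are the primitive connectives and `fimp`, `fex`
are defined from them classically; a name for a relation between ground model sets `X` and `Y` is a
map sending `x : X` and `y : Y` to a set of conditions, and `meets N` says that the generic filter
meets `N`. `OmegaOnePreserved P` says that no function from the natural numbers onto the ground
model `ω₁` exists in the extension, and `ContinuumLe P Om1` says that in the extension there is a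
map from `ω₁` onto the set of all functions from the natural numbers to themselves.
-/

set_option autoImplicit false

namespace Pool.Agent.Results.MP_21276c_lc.NonselectiveQpoint

open Cardinal Pool.Agent.Helper669.Forcing Pool.Agent.W684.FM

/-- nonprincipal ultrafilter on ℕ -/
def Nonprincipal (W : Ultrafilter ℕ) : Prop := ∀ n : ℕ, ({n} : Set ℕ) ∉ W

/-- p-point: every function is constant or finite-to-one on a set of the ultrafilter -/
def PPoint (W : Ultrafilter ℕ) : Prop :=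
  Nonprincipal W ∧ ∀ f : ℕ → ℕ, ∃ X ∈ W,
    (∃ c, ∀ x ∈ X, f x = c) ∨ ∀ m, {x | x ∈ X ∧ f x = m}.Finite

/-- q-point: every finite-to-one function is injective on a set of the ultrafilter -/
def QPoint (W : Ultrafilter ℕ) : Prop :=
  Nonprincipal W ∧ ∀ f : ℕ → ℕ, (∀ m, {x | f x = m}.Finite) → ∃ X ∈ W, Set.InjOn f X

/-- selective: every function is constant or injective on a set of the ultrafilter -/
def Selective (W : Ultrafilter ℕ) : Prop :=
  Nonprincipal W ∧ ∀ f : ℕ → ℕ, ∃ X ∈ W, (∃ c, ∀ x ∈ X, f x = c) ∨ Set.InjOn f X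

/-- Tukey reducibility `V ≤ U` (by a monotone map with cofinal image) -/
def TukeyLE (V U : Ultrafilter ℕ) : Prop :=
  ∃ g : Set ℕ → Set ℕ, (∀ A ∈ U, g A ∈ V) ∧ (∀ A ∈ U, ∀ B ∈ U, A ⊆ B → g A ⊆ g B) ∧
    ∀ B ∈ V, ∃ A ∈ U, g A ⊆ B

/-- isomorphic ultrafilters -/
def Isomorphic (V V' : Ultrafilter ℕ) : Prop := ∃ e : ℕ ≃ ℕ, V.map e = V'

/-- the Fubini limit of the ultrafilters `Y n` along `W`, transported to ℕ by the pairing function:
`A` belongs to it iff `{n | {x | (n, x) ∈ A} ∈ Y n} ∈ W` -/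
def IsFubiniLimit (W : Ultrafilter ℕ) (Y : ℕ → Ultrafilter ℕ) (U : Ultrafilter ℕ) : Prop :=
  ∀ A : Set ℕ, A ∈ U ↔ {n | {x | Nat.pair n x ∈ A} ∈ Y n} ∈ W

/-- Fubini iterates of p-points of depth at most `k + 1` -/
def Iterates : ℕ → Set (Ultrafilter ℕ)
  | 0 => {W | PPoint W}
  | k + 1 => {U | U ∈ Iterates k ∨ ∃ W Y, PPoint W ∧ (∀ n, Y n ∈ Iterates k) ∧
      IsFubiniLimit W Y U}

theorem sel_iff (W : Ultrafilter ℕ) : Selective W ↔ Pool.Agent.W352.Qp.IsSel W := by
  constructor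
  · rintro ⟨h1, h2⟩
    refine ⟨h1, fun f => ?_⟩
    obtain ⟨X, hX, h | h⟩ := h2 f
    · exact Or.inl ⟨X, hX, h⟩
    · exact Or.inr ⟨X, hX, h⟩
  · rintro ⟨h1, h2⟩
    refine ⟨h1, fun f => ?_⟩
    rcases h2 f with ⟨X, hX, h⟩ | ⟨X, hX, h⟩
    · exact ⟨X, hX, Or.inl h⟩
    · exact ⟨X, hX, Or.inr h⟩

theorem Selective.ppoint {W : Ultrafilter ℕ} (h : Selective W) : PPoint W := by
  refine ⟨h.1, fun f => ?_⟩
  obtain ⟨X, hX, h | h⟩ := h.2 f
  · exact ⟨X, hX, Or.inl h⟩
  · refine ⟨X, hX, Or.inr fun m => ?_⟩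
    apply Set.Subsingleton.finite
    rintro x ⟨hx, hxm⟩ y ⟨hy, hym⟩
    exact h hx hy (hxm.trans hym.symm)

theorem limit_unique {W : Ultrafilter ℕ} {Y : ℕ → Ultrafilter ℕ} {U : Ultrafilter ℕ}
    (h : IsFubiniLimit W Y U) : U = Pool.Agent.W352.Qp.lim W Y := by
  apply Pool.Agent.W352.Qp.eq_of_le
  intro C hC
  rw [h C]
  exact (Pool.Agent.W352.Qp.mem_lim W Y C).1 hC

/-- There is a preordered set `P` of forcing conditions such that every condition forces that `ω₁`
is preserved and that the continuum is at most `ω₁`; the continuum hypothesis implies that there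
are a Fubini iterate `U` of p-points of depth two and a q-point `V ≤_T U` which is not selective.
Indeed (in ZFC) every Fubini limit of a sequence of pairwise non-isomorphic selective ultrafilters
is a q-point and not selective, and the continuum hypothesis provides such a sequence. -/
theorem result :
    (∃ (P : Type) (_ : Preorder P), Nonempty P ∧ ∀ p : P,
      p ∈ OmegaOnePreserved P ∧ p ∈ ContinuumLe P Om1) ∧
    ((∃ E : Om1 → ℕ → ℕ, Function.Surjective E) ↔ (𝔠 : Cardinal.{0}) = ℵ₁) ∧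
    (∀ (W : Ultrafilter ℕ) (Y : ℕ → Ultrafilter ℕ) (U : Ultrafilter ℕ), Nonprincipal W →
      (∀ n, Selective (Y n)) → (∀ n m, n ≠ m → ¬ Isomorphic (Y n) (Y m)) →
      IsFubiniLimit W Y U → QPoint U ∧ ¬ Selective U) ∧
    ((𝔠 : Cardinal.{0}) = ℵ₁ → ∃ (W : Ultrafilter ℕ) (Y : ℕ → Ultrafilter ℕ) (U : Ultrafilter ℕ),
      Selective W ∧ (∀ n, Selective (Y n)) ∧ (∀ n m, n ≠ m → ¬ Isomorphic (Y n) (Y m)) ∧
      IsFubiniLimit W Y U) ∧
    ((𝔠 : Cardinal.{0}) = ℵ₁ → ∃ (U V : Ultrafilter ℕ),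
      U ∈ Iterates 1 ∧ QPoint V ∧ TukeyLE V U ∧ ¬ Selective V) := by
  have hA : ∀ (W : Ultrafilter ℕ) (Y : ℕ → Ultrafilter ℕ) (U : Ultrafilter ℕ), Nonprincipal W →
      (∀ n, Selective (Y n)) → (∀ n m, n ≠ m → ¬ Isomorphic (Y n) (Y m)) →
      IsFubiniLimit W Y U → QPoint U ∧ ¬ Selective U := by
    intro W Y U hW hY hi hU
    obtain ⟨h1, h2⟩ := Pool.Agent.W352.Qp.lim_isQ_of_nonIso (W := W) (Y := Y) hW
      (fun n => (sel_iff _).1 (hY n)) hi
    rw [limit_unique hU]
    exact ⟨h1, fun h => h2 ((sel_iff _).1 h)⟩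
  have hB : (𝔠 : Cardinal.{0}) = ℵ₁ → ∃ (W : Ultrafilter ℕ) (Y : ℕ → Ultrafilter ℕ)
      (U : Ultrafilter ℕ), Selective W ∧ (∀ n, Selective (Y n)) ∧
      (∀ n m, n ≠ m → ¬ Isomorphic (Y n) (Y m)) ∧ IsFubiniLimit W Y U := by
    intro hCH
    obtain ⟨V, h1, h2⟩ := Pool.Agent.W352.Qp.exists_selective_seq hCH
    exact ⟨V 0, V, Pool.Agent.W352.Qp.lim (V 0) V, (sel_iff _).2 (h1 0),
      fun n => (sel_iff _).2 (h1 n), h2, fun A => Pool.Agent.W352.Qp.mem_lim _ _ A⟩
  refine ⟨Pool.Agent.W352.CHF.exists_forcing, ?_, hA, hB, fun hCH => ?_⟩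
  · have h1 : #(ℕ → ℕ) = (𝔠 : Cardinal.{0}) := by
      simp
    have h2 : #Om1 = ℵ₁ := Cardinal.mk_ord_toType _
    constructor
    · rintro ⟨E, hE⟩
      have h3 := mk_le_of_surjective hE
      rw [h1, h2] at h3
      exact le_antisymm h3 Cardinal.aleph_one_le_continuum
    · intro h
      have h3 : #(ℕ → ℕ) ≤ #Om1 := by rw [h1, h2, h]
      obtain ⟨e⟩ := h3
      exact ⟨Function.invFun e, Function.invFun_surjective e.injective⟩
  · obtain ⟨W, Y, U, h1, h2, h3, h4⟩ := hB hCH
    obtain ⟨h5, h6⟩ := hA W Y U h1.1 h2 h3 h4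
    refine ⟨U, U, Or.inr ⟨W, Y, h1.ppoint, fun n => (h2 n).ppoint, h4⟩, h5, ?_, h6⟩
    exact ⟨id, fun A hA => hA, fun A _ B _ h => h, fun B hB => ⟨B, hB, subset_rfl⟩⟩

end Pool.Agent.Results.MP_21276c_lc.NonselectiveQpoint
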